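import Mathlib
import Pool.Agent.Helper359.LB.Main

set_option autoImplicit false

open Configuration

namespace Pool.Agent.Results.MP_f98417_co.CommutativeHomologies

/-- `γ` is a perspectivity with centre `x` and axis `Y`: it fixes every point of `Y` and every
line through `x`. -/
def IsPersp {P L : Type*} [Membership P L] (γ : Equiv.Perm P × Equiv.Perm L) (x : P) (Y : L) :
    Prop :=
  (∀ r : P, r ∈ Y → γ.1 r = r) ∧ (∀ N : L, x ∈ N → γ.2 N = N)

/-- The group `Γ` is `(x, Y)`-transitive. -/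
def IsPerspTransitive {P L : Type*} [Membership P L]
    (Γ : Subgroup (Equiv.Perm P × Equiv.Perm L)) (x : P) (Y : L) : Prop :=
  ∀ M : L, x ∈ M → M ≠ Y → ∀ p q : P, p ∈ M → q ∈ M → p ≠ x → q ≠ x → p ∉ Y → q ∉ Y →
    ∃ γ ∈ Γ, IsPersp γ x Y ∧ γ.1 p = q

/-- The collineation group `Γ` has Lenz-Barlotti type I.6 with flag `(v, W)` and bijection `σ`. -/
structure IsTypeI6 {P L : Type*} [Membership P L]
    (Γ : Subgroup (Equiv.Perm P × Equiv.Perm L)) (v : P) (W : L) (σ : P → L) : Prop where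
  incidence : ∀ γ ∈ Γ, ∀ (p : P) (l : L), p ∈ l ↔ γ.1 p ∈ γ.2 l
  flag : v ∈ W
  maps_to : ∀ x : P, x ∈ W → x ≠ v → v ∈ σ x ∧ σ x ≠ W
  injective : ∀ x y : P, x ∈ W → x ≠ v → y ∈ W → y ≠ v → σ x = σ y → x = y
  surjective : ∀ M : L, v ∈ M → M ≠ W → ∃ x : P, x ∈ W ∧ x ≠ v ∧ σ x = M
  transitive_iff : ∀ (x : P) (Y : L), IsPerspTransitive Γ x Y ↔ (x ∈ W ∧ x ≠ v ∧ Y = σ x)

/-- In an infinite projective plane with a group `Γ` of Lenz-Barlotti type I.6, if one of the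
homology groups `Γ(x, σ x)` is commutative, then every homology in every group `Γ(y, σ y)` has
order dividing three. -/
theorem result {P L : Type*} [Membership P L] [ProjectivePlane P L] [Infinite P]
    (Γ : Subgroup (Equiv.Perm P × Equiv.Perm L)) (v : P) (W : L) (σ : P → L)
    (hΓ : IsTypeI6 Γ v W σ)
    (x : P) (hxW : x ∈ W) (hxv : x ≠ v)
    (hcomm : ∀ γ ∈ Γ, ∀ η ∈ Γ, IsPersp γ x (σ x) → IsPersp η x (σ x) → γ * η = η * γ) :
    ∀ y ∈ W, y ≠ v → ∀ γ ∈ Γ, IsPersp γ y (σ y) → γ ^ 3 = 1 := by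
  intro y hyW hyv γ hγ hγp
  let H : Pool.Agent.Helper359.LB.Hyp P L :=
    { Γ := Γ
      inc := hΓ.incidence
      v := v
      W := W
      σ := σ
      vW := hΓ.flag
      σ1 := hΓ.maps_to
      σ2 := hΓ.injective
      σ3 := hΓ.surjective
      tr := by
        intro a Y
        rw [← hΓ.transitive_iff]
        constructor
        · intro h M h1 h2 p q h3 h4 h5 h6 h7 h8
          obtain ⟨γ, g1, g2, g3, g4⟩ := h M h1 h2 p q h3 h4 h5 h6 h7 h8
          exact ⟨γ, g1, ⟨g2, g3⟩, g4⟩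
        · intro h M h1 h2 p q h3 h4 h5 h6 h7 h8
          obtain ⟨γ, g1, ⟨g2, g3⟩, g4⟩ := h M h1 h2 p q h3 h4 h5 h6 h7 h8
          exact ⟨γ, g1, g2, g3, g4⟩ }
  have key := H.main ⟨x, hxW, hxv⟩
    (fun u hu w hw => Subtype.ext (hcomm u.1 u.2 w.1 w.2 hu hw)) ⟨y, hyW, hyv⟩ ⟨γ, hγ⟩ hγp
  exact congrArg Subtype.val key

end Pool.Agent.Results.MP_f98417_co.CommutativeHomologies
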